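import Pool.Agent.Q229.EvC.Main
import Pool.Agent.Q229.EvC.Pack

set_option autoImplicit false

/-!
# Containing a cycle of given even length is evasive for every number of vertices (MP_257582_lc)

Let `4 ≤ s ≤ n` and let `P` be a monotone isomorphism-invariant property of graphs on `n` vertices
(`n` arbitrary, no prime power condition) such that

* `P` holds for all vertex-transitive graphs of degree at least 3 all of whose components have at
  least `s` vertices and which contain cycles of all even lengths from 4 to `s`;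
* the cycle with `n` vertices does not have `P`;
* no graph all of whose components have fewer than `s` vertices has `P`, or `s = 4`, or
  `2 ^ s ≤ φ(n)`.

Then `P` is evasive.  In particular let `L` be a set of integers `≥ 3` with `n ∉ L` and with an even
element `l < n` such that `l` is the least element of `L`, or `l = 4`, or `2 ^ l ≤ φ(n)`. Then for
all `1 ≤ t ≤ n` the property that at least `t` vertices lie on cycles whose lengths belong to `L` is
evasive. With `L = {l}` and `t = 1`: for every even `l ≥ 4` and EVERY `n > l` it is evasive to contain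
a cycle of length `l`. Also, for all `1 ≤ t ≤ n / l ^ 2`, the property of containing `t` vertex-disjoint
cycles with lengths in `L` is evasive, for `t ≥ 2` also if `n ∈ L`; for example it is evasive to contain
`t` vertex-disjoint cycles, `2 ≤ t ≤ n / 16`.

Proof.  If `P` is not evasive, then the signed number of the circulant graphs on `n` vertices without
`P` vanishes (Kahn, Saks and Sturtevant; the sign is given by the number of pairs `{a, -a}` in the
connection set).  Every circulant graph with at least two pairs in its connection set contains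
cycles of all even lengths from 4 to the order of its components (`even_cycles`): either a generator
lies outside the subgroup generated by the others, and the components have spanning grids, or the
graph contains the graph on `ZMod d` with the differences `1` and `t`, `2 ≤ t ≤ d / 2`, which contains a
grid with rows of length `t` and an incomplete last row; the grids have cycles of all even lengths,
built from a ladder on the first two rows and fingers of width two (and one of width three).
So a circulant graph without `P` has components with fewer than `s` vertices, or its connection set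
is a single pair, and then it contributes `-1`. At least `φ(n) / 2` of the latter are cycles with `n`
vertices. The former contribute less than `φ(n) / 2`: under the first condition their contribution
is the partial sum of the Moebius function over the divisors of `n` below `s`, and this is less than
`φ(n) / 2` for all `n ≥ 4` (`small_odd`, `small_even`).
-/

namespace Pool.Agent.Results.MP_257582_lc.EvenCycles

open Finset

/-- Every decision strategy `σ` (the next pair to be queried depends only on the answers to the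
queries made so far) needs all `n.choose 2` queries: there are two graphs that agree on the first
`n.choose 2 - 1` queried pairs, one with and one without `P`. -/
def Evasive {n : ℕ} (P : SimpleGraph (Fin n) → Prop) : Prop :=
  ∀ σ : Finset (Sym2 (Fin n)) → SimpleGraph (Fin n) → Sym2 (Fin n),
    (∀ (Q : Finset (Sym2 (Fin n))) (G H : SimpleGraph (Fin n)),
        (∀ e ∈ Q, (e ∈ G.edgeSet ↔ e ∈ H.edgeSet)) → σ Q G = σ Q H) →
    ∃ G H : SimpleGraph (Fin n),
      (∀ e ∈ (fun Q : Finset (Sym2 (Fin n)) => insert (σ Q G) Q)^[n.choose 2 - 1]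
            (∅ : Finset (Sym2 (Fin n))),
          (e ∈ G.edgeSet ↔ e ∈ H.edgeSet)) ∧ P G ∧ ¬ P H

/-- Any two vertices are exchanged by an automorphism. -/
def VertexTransitive {n : ℕ} (G : SimpleGraph (Fin n)) : Prop :=
  ∀ u v : Fin n, ∃ φ : G ≃g G, φ u = v

/-- The vertex `v` lies on a cycle of length `k` of `G`: there is a copy of the cycle with `k`
vertices in `G` that contains `v`. -/
def OnCycle {n : ℕ} (G : SimpleGraph (Fin n)) (k : ℕ) (v : Fin n) : Prop :=
  ∃ (f : (SimpleGraph.cycleGraph k).Copy G) (i : Fin k), f i = v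

/-- a cycle contains no shorter cycle -/
theorem not_contained {k n : ℕ} (hk : 3 ≤ k) (hkn : k ≠ n) :
    ¬ (SimpleGraph.cycleGraph k).IsContained (SimpleGraph.cycleGraph n) := by
  rintro ⟨f⟩
  have hn : k ≤ n := by
    have := Fintype.card_le_of_injective f f.injective
    simpa using this
  have hn3 : 3 ≤ n := by omega
  have : NeZero k := ⟨by omega⟩
  have : NeZero n := ⟨by omega⟩
  have hval1 : ∀ m : ℕ, 3 ≤ m → ∀ [NeZero m], (1 : Fin m).val = 1 := by
    intro m hm _
    rw [Fin.val_one']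
    exact Nat.mod_eq_of_lt (by omega)
  have hadj : ∀ u v : Fin n, (SimpleGraph.cycleGraph n).Adj u v → v = u + 1 ∨ v = u - 1 := by
    intro u v h
    rw [SimpleGraph.cycleGraph_adj'] at h
    rcases h with h | h
    · right
      have : u - v = 1 := Fin.ext (by rw [h, hval1 n hn3])
      rw [← this]
      abel
    · left
      have : v - u = 1 := Fin.ext (by rw [h, hval1 n hn3])
      rw [← this]
      abel
  have hsucc : ∀ i : Fin k, (SimpleGraph.cycleGraph k).Adj i (i + 1) := by
    intro i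
    rw [SimpleGraph.cycleGraph_adj']
    right
    have : i + 1 - i = 1 := by abel
    rw [this, hval1 k hk]
  have hstep : ∀ i : Fin k, ∃ i' : Fin k, f i' = f i + 1 := by
    intro i
    have h1 := hadj _ _ (f.toHom.map_adj (hsucc i))
    have h2 := hadj _ _ (f.toHom.map_adj (hsucc (i - 1)).symm)
    have e : i - 1 + 1 = i := by abel
    rw [e] at h2
    have h1' : f (i + 1) = f i + 1 ∨ f (i + 1) = f i - 1 := h1
    have h2' : f (i - 1) = f i + 1 ∨ f (i - 1) = f i - 1 := h2
    rcases h1' with h1' | h1'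
    · exact ⟨_, h1'⟩
    · rcases h2' with h2' | h2'
      · exact ⟨_, h2'⟩
      · exfalso
        have h3 : f (i + 1) = f (i - 1) := by rw [h1', h2']
        have h4 : i + 1 = i - 1 := f.injective h3
        have h5 : (1 : Fin k) + 1 = 0 := by
          have h6 : (1 : Fin k) + 1 = (i + 1) - (i - 1) := by abel
          rw [h6, h4, sub_self]
        have h6 : ((1 : Fin k) + 1).val = 2 := by
          rw [Fin.val_add, hval1 k hk]
          exact Nat.mod_eq_of_lt (by omega)
        rw [h5, Fin.val_zero] at h6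
        omega
  have hall : ∀ m : ℕ, ∃ i : Fin k, (f i).val = ((f 0).val + m) % n := by
    intro m
    induction m with
    | zero => exact ⟨0, by rw [add_zero, Nat.mod_eq_of_lt (f 0).2]⟩
    | succ m ih =>
      obtain ⟨i, hi⟩ := ih
      obtain ⟨i', hi'⟩ := hstep i
      refine ⟨i', ?_⟩
      rw [hi', Fin.val_add, hval1 n hn3, hi, Nat.mod_add_mod, add_assoc]
  have hsurj : Function.Surjective f := by
    intro v
    obtain ⟨i, hi⟩ := hall (v.val + n - (f 0).val)
    refine ⟨i, Fin.ext ?_⟩
    have h1 := (f 0).2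
    have h2 : (f 0).val + (v.val + n - (f 0).val) = v.val + n := by omega
    rw [hi, h2, Nat.add_mod_right, Nat.mod_eq_of_lt v.2]
  have := Fintype.card_le_of_surjective f hsurj
  rw [Fintype.card_fin, Fintype.card_fin] at this
  omega

/-- `G` contains `t` vertex-disjoint cycles whose lengths belong to `L`; `F` is the set of their
vertex sets. -/
def Packs {n : ℕ} (G : SimpleGraph (Fin n)) (L : Set ℕ) (t : ℕ) : Prop :=
  ∃ F : Finset (Finset (Fin n)), t ≤ F.card ∧ (F : Set (Finset (Fin n))).PairwiseDisjoint id ∧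
    ∀ S ∈ F, ∃ k ∈ L, ∃ f : (SimpleGraph.cycleGraph k).Copy G, Set.range f = (S : Set (Fin n))

theorem range_card {V : Type} {k : ℕ} {G : SimpleGraph V}
    (f : (SimpleGraph.cycleGraph k).Copy G) : (Set.range f).ncard = k := by
  rw [← Set.image_univ]
  have h11 : ((fun x => f x) '' (Set.univ : Set (Fin k))).ncard =
      (Set.univ : Set (Fin k)).ncard := Set.ncard_image_of_injective _ f.injective
  rw [Set.ncard_univ, Nat.card_eq_fintype_card, Fintype.card_fin] at h11
  exact h11

theorem comp_card {n k : ℕ} {G : SimpleGraph (Fin n)} (hk : 3 ≤ k)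
    (f : (SimpleGraph.cycleGraph k).Copy G) : ∃ v, k ≤ {w | G.Reachable v w}.ncard := by
  obtain ⟨k, rfl⟩ : ∃ k', k = k' + 1 := ⟨k - 1, by omega⟩
  refine ⟨f 0, ?_⟩
  refine (range_card f).symm.le.trans (Set.ncard_le_ncard ?_ (Set.toFinite _))
  rintro w ⟨x, rfl⟩
  exact ((SimpleGraph.cycleGraph_connected).preconnected 0 x).map f.toHom

theorem OnCycle.mono {n : ℕ} {G H : SimpleGraph (Fin n)} (h : G ≤ H) {k : ℕ} {v : Fin n}
    (hv : OnCycle G k v) : OnCycle H k v := by
  obtain ⟨f, i, hi⟩ := hv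
  exact ⟨(SimpleGraph.Copy.ofLE G H h).comp f, i, hi⟩

theorem OnCycle.iso {n : ℕ} {G H : SimpleGraph (Fin n)} (φ : G ≃g H) {k : ℕ} {v : Fin n}
    (hv : OnCycle G k v) : OnCycle H k (φ v) := by
  obtain ⟨f, i, hi⟩ := hv
  refine ⟨φ.toEmbedding.toCopy.comp f, i, ?_⟩
  change φ (f i) = φ v
  rw [hi]

theorem Packs.mono {n : ℕ} {G H : SimpleGraph (Fin n)} (h : G ≤ H) {L : Set ℕ} {t : ℕ}
    (hG : Packs G L t) : Packs H L t := by
  obtain ⟨F, h1, h2, h3⟩ := hG
  refine ⟨F, h1, h2, fun S hS => ?_⟩
  obtain ⟨k, hk, f, hf⟩ := h3 S hS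
  exact ⟨k, hk, (SimpleGraph.Copy.ofLE G H h).comp f, hf⟩

open Classical in
theorem Packs.iso {n : ℕ} (σ : Fin n ≃ Fin n) {G : SimpleGraph (Fin n)} {L : Set ℕ} {t : ℕ}
    (hG : Packs G L t) : Packs (G.map σ.toEmbedding) L t := by
  obtain ⟨F, h1, h2, h3⟩ := hG
  have hinj : Function.Injective (fun S : Finset (Fin n) => S.image σ) :=
    Finset.image_injective σ.injective
  refine ⟨F.image (fun S => S.image σ), ?_, ?_, ?_⟩
  · rw [card_image_of_injective _ hinj]
    exact h1
  · intro S' hS' T' hT' hne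
    rw [coe_image] at hS' hT'
    obtain ⟨S, hS, rfl⟩ := hS'
    obtain ⟨T, hT, rfl⟩ := hT'
    have h4 : S ≠ T := fun h => hne (by rw [h])
    have h5 : Disjoint S T := h2 hS hT h4
    change Disjoint (S.image σ) (T.image σ)
    exact (disjoint_image σ.injective).2 h5
  · intro S' hS'
    obtain ⟨S, hS, rfl⟩ := mem_image.1 hS'
    obtain ⟨k, hk, f, hf⟩ := h3 S hS
    refine ⟨k, hk, (SimpleGraph.Iso.map σ G).toEmbedding.toCopy.comp f, ?_⟩
    rw [coe_image, ← hf]
    ext x
    constructor
    · rintro ⟨i, rfl⟩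
      exact ⟨f i, ⟨i, rfl⟩, rfl⟩
    · rintro ⟨y, ⟨i, rfl⟩, rfl⟩
      exact ⟨i, rfl⟩

open Classical in
theorem packs_low {n t l : ℕ} {L : Set ℕ} (hl : l ∈ L) (hl0 : 0 < l) (htn : t * l ^ 2 ≤ n)
    (G : SimpleGraph (Fin n)) (hVT : VertexTransitive G)
    (hG : (SimpleGraph.cycleGraph l).IsContained G) : Packs G L t := by
  obtain ⟨f⟩ := hG
  set F : Finset (Finset (Fin n)) := univ.filter fun S =>
    ∃ f : (SimpleGraph.cycleGraph l).Copy G, Set.range f = (S : Set (Fin n)) with hF
  have hmem : ∀ S, S ∈ F ↔ ∃ f : (SimpleGraph.cycleGraph l).Copy G,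
      Set.range f = (S : Set (Fin n)) := fun S => by simp [hF]
  obtain ⟨M, h1, h2, h3⟩ := Pool.Agent.Q229.EvC.packing l F
    ⟨(Set.toFinite (Set.range f)).toFinset, (hmem _).2 ⟨f, by simp⟩⟩ (by
      intro S hS
      obtain ⟨g, hg⟩ := (hmem S).1 hS
      rw [← Set.ncard_coe_finset, ← hg, range_card])
    (by
      intro u v
      obtain ⟨φ, hφ⟩ := hVT u v
      refine ⟨φ.toEquiv, hφ, ?_⟩
      intro S hS
      obtain ⟨g, hg⟩ := (hmem S).1 hS
      rw [hmem]
      refine ⟨φ.toEmbedding.toCopy.comp g, ?_⟩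
      rw [coe_map, ← hg]
      ext x
      constructor
      · rintro ⟨i, rfl⟩
        exact ⟨g i, ⟨i, rfl⟩, rfl⟩
      · rintro ⟨y, ⟨i, rfl⟩, rfl⟩
        exact ⟨i, rfl⟩) hl0
  rw [Fintype.card_fin] at h3
  refine ⟨M, Nat.le_of_mul_le_mul_right (htn.trans h3) (pow_pos hl0 2), h2, fun S hS => ?_⟩
  obtain ⟨g, hg⟩ := (hmem S).1 (h1 hS)
  exact ⟨l, hl, g, hg⟩

theorem pack_evasive
    (hA : ∀ n s : ℕ, 4 ≤ s → s ≤ n → ∀ P : SimpleGraph (Fin n) → Prop,
      (∀ G H : SimpleGraph (Fin n), G ≤ H → P G → P H) →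
      (∀ (σ : Fin n ≃ Fin n) (G : SimpleGraph (Fin n)), P G → P (G.map σ.toEmbedding)) →
      (∀ G : SimpleGraph (Fin n), VertexTransitive G → (∀ v, 3 ≤ (G.neighborSet v).ncard) →
        (∀ v, s ≤ {w | G.Reachable v w}.ncard) →
        (∀ l, Even l → 4 ≤ l → l ≤ s → (SimpleGraph.cycleGraph l).IsContained G) → P G) →
      ¬ P (SimpleGraph.cycleGraph n) →
      ((∀ G : SimpleGraph (Fin n), (∀ v, {w | G.Reachable v w}.ncard < s) → ¬ P G) ∨ s = 4 ∨
        2 ^ s ≤ n.totient) →
      Evasive P)
    {n t l : ℕ} {L : Set ℕ} (ht : 1 ≤ t) (htn : t * l ^ 2 ≤ n) (h3 : ∀ k ∈ L, 3 ≤ k)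
    (hnL : n ∉ L ∨ 2 ≤ t) (hl : l ∈ L) (hev : Even l)
    (hcase : (∀ k ∈ L, l ≤ k) ∨ l = 4 ∨ 2 ^ l ≤ n.totient) :
    Evasive (fun G : SimpleGraph (Fin n) => Packs G L t) := by
  have h4 : 4 ≤ l := by
    have := h3 l hl
    obtain ⟨w, hw⟩ := hev
    omega
  have hln : l ≤ n := by
    have h5 : 1 * l ^ 2 ≤ t * l ^ 2 := Nat.mul_le_mul_right _ ht
    have h6 : l * 1 ≤ l * l := Nat.mul_le_mul_left _ (by omega)
    rw [pow_two] at h5 htn
    omega
  refine hA n l h4 hln _ (fun G H h hG => hG.mono h) (fun σ G hG => hG.iso σ) ?_ ?_ ?_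
  · intro G hVT _ _ hG
    exact packs_low hl (by omega) htn G hVT (hG l hev h4 le_rfl)
  · rintro ⟨F, h5, h6, h7⟩
    have hfull : ∀ S ∈ F, n ∈ L ∧ S = univ := by
      intro S hS
      obtain ⟨k, hk, f, hf⟩ := h7 S hS
      have hkn : k = n := by
        by_contra h
        exact not_contained (h3 k hk) h ⟨f⟩
      subst hkn
      refine ⟨hk, ?_⟩
      apply Finset.eq_univ_of_card
      rw [← Set.ncard_coe_finset, ← hf, range_card, Fintype.card_fin]
    rcases hnL with h | h
    · obtain ⟨S, hS⟩ : F.Nonempty := card_pos.1 (by omega)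
      exact h (hfull S hS).1
    · obtain ⟨S, hS, T, hT, hne⟩ := one_lt_card.1 (lt_of_lt_of_le (by omega : 1 < t) h5)
      exact hne (by rw [(hfull S hS).2, (hfull T hT).2])
  · rcases hcase with h | h | h
    · left
      rintro G hG ⟨F, h5, h6, h7⟩
      obtain ⟨S, hS⟩ : F.Nonempty := card_pos.1 (by omega)
      obtain ⟨k, hk, f, -⟩ := h7 S hS
      obtain ⟨u, hu⟩ := comp_card (h3 k hk) f
      have hlk := h k hk
      have h8 := hG u
      omega
    · exact Or.inr (Or.inl h)
    · exact Or.inr (Or.inr h)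

/-- **Containing a cycle of given even length is evasive for every number of vertices.** -/
theorem result :
    (∀ n s : ℕ, 4 ≤ s → s ≤ n → ∀ P : SimpleGraph (Fin n) → Prop,
      (∀ G H : SimpleGraph (Fin n), G ≤ H → P G → P H) →
      (∀ (σ : Fin n ≃ Fin n) (G : SimpleGraph (Fin n)), P G → P (G.map σ.toEmbedding)) →
      (∀ G : SimpleGraph (Fin n), VertexTransitive G → (∀ v, 3 ≤ (G.neighborSet v).ncard) →
        (∀ v, s ≤ {w | G.Reachable v w}.ncard) →
        (∀ l, Even l → 4 ≤ l → l ≤ s → (SimpleGraph.cycleGraph l).IsContained G) → P G) →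
      ¬ P (SimpleGraph.cycleGraph n) →
      ((∀ G : SimpleGraph (Fin n), (∀ v, {w | G.Reachable v w}.ncard < s) → ¬ P G) ∨ s = 4 ∨
        2 ^ s ≤ n.totient) →
      Evasive P) ∧
    (∀ (n t l : ℕ) (L : Set ℕ), 1 ≤ t → t ≤ n → (∀ k ∈ L, 3 ≤ k) → n ∉ L → l ∈ L → Even l → l < n →
      ((∀ k ∈ L, l ≤ k) ∨ l = 4 ∨ 2 ^ l ≤ n.totient) →
      Evasive (fun G : SimpleGraph (Fin n) => t ≤ {v | ∃ k ∈ L, OnCycle G k v}.ncard)) ∧
    ∀ (n t l : ℕ) (L : Set ℕ), 1 ≤ t → t * l ^ 2 ≤ n → (∀ k ∈ L, 3 ≤ k) → (n ∉ L ∨ 2 ≤ t) → l ∈ L →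
      Even l → ((∀ k ∈ L, l ≤ k) ∨ l = 4 ∨ 2 ^ l ≤ n.totient) →
      Evasive (fun G : SimpleGraph (Fin n) => Packs G L t) := by
  have hA : ∀ n s : ℕ, 4 ≤ s → s ≤ n → ∀ P : SimpleGraph (Fin n) → Prop,
      (∀ G H : SimpleGraph (Fin n), G ≤ H → P G → P H) →
      (∀ (σ : Fin n ≃ Fin n) (G : SimpleGraph (Fin n)), P G → P (G.map σ.toEmbedding)) →
      (∀ G : SimpleGraph (Fin n), VertexTransitive G → (∀ v, 3 ≤ (G.neighborSet v).ncard) →
        (∀ v, s ≤ {w | G.Reachable v w}.ncard) →
        (∀ l, Even l → 4 ≤ l → l ≤ s → (SimpleGraph.cycleGraph l).IsContained G) → P G) →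
      ¬ P (SimpleGraph.cycleGraph n) →
      ((∀ G : SimpleGraph (Fin n), (∀ v, {w | G.Reachable v w}.ncard < s) → ¬ P G) ∨ s = 4 ∨
        2 ^ s ≤ n.totient) →
      Evasive P := by
    intro n s hs hsn P hmono hiso hlow hcyc hsmall σ hσ
    by_contra hcon
    refine Pool.Agent.Q229.EvC.core n s (by omega) hs hsn P hlow hcyc hsmall
      ⟨hmono, hiso, Pool.Agent.H119R2.Kp.dec_of_strategy _ P σ hσ fun G H hGH hPG => ?_⟩
    by_contra hPH
    exact hcon ⟨G, H, hGH, hPG, hPH⟩
  refine ⟨hA, ?_, ?_⟩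
  swap
  · intro n t l L ht htn h3 hnL hl hev hcase
    exact pack_evasive hA ht htn h3 hnL hl hev hcase
  intro n t l L ht htn h3 hnL hl hev hln hcase
  have h4 : 4 ≤ l := by
    have := h3 l hl
    obtain ⟨w, hw⟩ := hev
    omega
  refine hA n l h4 hln.le _ ?_ ?_ ?_ ?_ ?_
  · intro G H hGH hG
    refine hG.trans (Set.ncard_le_ncard ?_ (Set.toFinite _))
    rintro v ⟨k, hk, hv⟩
    exact ⟨k, hk, hv.mono hGH⟩
  · intro σ G hG
    refine hG.trans ?_
    rw [← Set.ncard_image_of_injective _ σ.injective]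
    refine Set.ncard_le_ncard ?_ (Set.toFinite _)
    rintro w ⟨v, ⟨k, hk, hv⟩, rfl⟩
    exact ⟨k, hk, hv.iso (SimpleGraph.Iso.map σ G)⟩
  · intro G hVT _ _ hG
    obtain ⟨f⟩ := hG l hev h4 le_rfl
    have huniv : {v | ∃ k ∈ L, OnCycle G k v} = Set.univ := by
      rw [Set.eq_univ_iff_forall]
      intro v
      have : NeZero l := ⟨by omega⟩
      obtain ⟨φ, hφ⟩ := hVT (f 0) v
      refine ⟨l, hl, ?_⟩
      rw [← hφ]
      exact OnCycle.iso φ ⟨f, 0, rfl⟩
    change t ≤ {v | ∃ k ∈ L, OnCycle G k v}.ncard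
    rw [huniv, Set.ncard_univ, Nat.card_eq_fintype_card, Fintype.card_fin]
    exact htn
  · intro h
    have hne : {v | ∃ k ∈ L, OnCycle (SimpleGraph.cycleGraph n) k v}.Nonempty := by
      rw [← Set.ncard_pos (Set.toFinite _)]
      exact lt_of_lt_of_le (by omega) h
    obtain ⟨v, k, hk, f, -⟩ := hne
    refine not_contained (h3 k hk) ?_ ⟨f⟩
    rintro rfl
    exact hnL hk
  · rcases hcase with h | h | h
    · left
      intro G hG h5
      have hne : {v | ∃ k ∈ L, OnCycle G k v}.Nonempty := by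
        rw [← Set.ncard_pos (Set.toFinite _)]
        exact lt_of_lt_of_le (by omega) h5
      obtain ⟨v, k, hk, f, -⟩ := hne
      obtain ⟨u, hu⟩ := comp_card (h3 k hk) f
      have hlk := h k hk
      have h8 := hG u
      omega
    · exact Or.inr (Or.inl h)
    · exact Or.inr (Or.inr h)

end Pool.Agent.Results.MP_257582_lc.EvenCycles
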