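import Mathlib
import Pool.Agent.Q6.KV.Fac2

set_option autoImplicit false

/-!
# Factors: evasiveness for every number of vertices (MP_257582_lc)

Let `1 ≤ a < n` and let `P` be a monotone isomorphism-invariant property of graphs on `n` vertices
such that every graph with a spanning `a`-regular subgraph (an `a`-factor) has `P`, and every graph
with `P` has minimum degree at least `a`. Then `P` is evasive if

* `a` is even, or
* every graph with an `(a + 1)`-factor has `P`, or
* `n` is even, and all components of the graphs with `P` have an even number of vertices.

There is no condition on the arithmetic of `n`.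

Examples: having an `a`-factor is evasive whenever it is non-trivial, that is for all `1 ≤ a < n`
with `a n` even (perfect matchings for `a = 1`); having an `[a, b]`-factor, for all `1 ≤ a < b`,
`a < n`; having a spanning subgraph all degrees of which lie in a set `D` of positive integers with
least element `a < n`, if `a` is even, or `a + 1 ∈ D`, or `n` is even and all members of `D` are odd
(odd factors); for even `n` and odd `a`, having minimum degree at least `a` and all components of
even order.

Proof.  Assume that `P` is not evasive. Then the signed number of the invariant graphs with `P`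
vanishes for suitable groups (Kahn, Saks and Sturtevant). An abelian Cayley graph of degree at least
`a` has an `a`-factor, or `a` is odd and it has an `(a + 1)`-factor: take a minimal symmetric subset
of the connection set. So in the first two cases `P` is the property of having degree at least `a`
on abelian Cayley graphs, and the groups of the starting file on degree properties give a
contradiction. In the third case let `a = 2 t + 1`, `t ≥ 1`. A circulant graph of degree at least
`a` has an `a`-factor if its connection set contains an element `s` of even order: the edges of
colour `s` contain a perfect matching. Otherwise its components have odd order, and it does not have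
`P`. Hence, with `N = (n - 2) / 2` and the number `M` of the pairs `{x, -x}` of elements of odd order
greater than 1, the signed number of the circulant graphs with `P` is
`(-1) ^ (t + 1) (C(N, t) - C(M - 1, t))` (without the second term for `M = 0`), which is not 0
since `M - 1 < N` and `1 ≤ t ≤ N`. For `a = 1` and even `n` the property holds for perfect matchings,
and the starting file on disjoint copies applies.
-/

namespace Pool.Agent.Results.MP_257582_lc.Factors

/-- Every decision strategy `σ` (the next pair to be queried depends only on the answers to the
queries made so far) needs all `n.choose 2` queries: there are two graphs that agree on the first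
`n.choose 2 - 1` queried pairs, one with and one without `P`. -/
def Evasive {n : ℕ} (P : SimpleGraph (Fin n) → Prop) : Prop :=
  ∀ σ : Finset (Sym2 (Fin n)) → SimpleGraph (Fin n) → Sym2 (Fin n),
    (∀ (Q : Finset (Sym2 (Fin n))) (G H : SimpleGraph (Fin n)),
        (∀ e ∈ Q, (e ∈ G.edgeSet ↔ e ∈ H.edgeSet)) → σ Q G = σ Q H) →
    ∃ G H : SimpleGraph (Fin n),
      (∀ e ∈ (fun Q : Finset (Sym2 (Fin n)) => insert (σ Q G) Q)^[n.choose 2 - 1]
            (∅ : Finset (Sym2 (Fin n))),
          (e ∈ G.edgeSet ↔ e ∈ H.edgeSet)) ∧ P G ∧ ¬ P H

/-- `G` has an `r`-factor: a spanning subgraph all of whose vertices have degree `r`. -/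
def HasFactor {n : ℕ} (r : ℕ) (G : SimpleGraph (Fin n)) : Prop :=
  ∃ H : SimpleGraph (Fin n), H ≤ G ∧ ∀ v, (H.neighborSet v).ncard = r

/-- **Every property between having an `a`-factor and having minimum degree `a` is evasive**, if `a`
is even, or `(a + 1)`-factors suffice for the property, or `n` and all components of the graphs with
the property are even. -/
theorem result (n a : ℕ) (ha : 1 ≤ a) (han : a < n) (P : SimpleGraph (Fin n) → Prop)
    (hmono : ∀ G H : SimpleGraph (Fin n), G ≤ H → P G → P H)
    (hiso : ∀ (σ : Fin n ≃ Fin n) (G : SimpleGraph (Fin n)), P G → P (G.map σ.toEmbedding))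
    (hfac : ∀ G : SimpleGraph (Fin n), HasFactor a G → P G)
    (hdeg : ∀ G : SimpleGraph (Fin n), P G → ∀ v, a ≤ (G.neighborSet v).ncard)
    (hcase : Even a ∨
      (∀ G : SimpleGraph (Fin n), HasFactor (a + 1) G → P G) ∨
      (Even n ∧ ∀ G : SimpleGraph (Fin n), P G → ∀ v, Even {w | G.Reachable v w}.ncard)) :
    Evasive P := by
  intro σ hσ
  by_contra hcon
  have hP : Pool.Agent.H119R2.Kp.GP n (n.choose 2 - 1) P := by
    refine ⟨hmono, hiso, Pool.Agent.H119R2.Kp.dec_of_strategy _ P σ hσ fun G H hGH hPG => ?_⟩
    by_contra hPH
    exact hcon ⟨G, H, hGH, hPG, hPH⟩
  rcases hcase with h | h | ⟨h1, h2⟩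
  · exact Pool.Agent.Q6.KV.coreA ha han hdeg hfac (Or.inl h) hP
  · exact Pool.Agent.Q6.KV.coreA ha han hdeg hfac (Or.inr h) hP
  · rcases Nat.even_or_odd a with h3 | ⟨t, rfl⟩
    · exact Pool.Agent.Q6.KV.coreA ha han hdeg hfac (Or.inl h3) hP
    · rcases Nat.eq_zero_or_pos t with rfl | ht
      · exact Pool.Agent.Q6.KV.coreC h1 han hdeg hfac hP
      · exact Pool.Agent.Q6.KV.coreB h1 t ht han hdeg hfac h2 hP

end Pool.Agent.Results.MP_257582_lc.Factors
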