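import Pool.Agent.Q226.HS.Sum

set_option autoImplicit false

/-!
# Between long cycles and large 2-connected subgraphs; Hamiltonicity (MP_257582_lc)

Let `4 ≤ s ≤ n` be such that `s - 1` divides `n - 1`, and let `s - 1` be a prime power or `n - 1` the
product of a prime power and a squarefree number. Then every monotone isomorphism-invariant property
of graphs on `n` vertices that contains all graphs with a cycle of length at least `s`, and all
members of which have a 2-connected induced subgraph on at least `s` vertices, is evasive.

The case `s = n`: if `n - 1` is the product of a prime power and a squarefree number, then every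
monotone property between having a Hamiltonian cycle and being 2-connected is evasive; for
example being Hamiltonian, 1-tough, or 2-connected with a 2-factor. Other values of `s`: having a
cycle of length at least `s` (circumference at least `s`), or a 2-connected subgraph with at
least `s` vertices.

Proof. The vertex set is one fixed point and `k` blocks, which are one group
`(ZMod p) ^ a × ZMod m` of order `n - 1` (`k = 1`), or `k` groups `(ZMod p) ^ a` of order `s - 1`. The
group of all translations of the blocks is an extension of a `p`-group by a cyclic group. If the
property is not evasive, then the signed sum of its values over the invariant graphs vanishes (Kahn,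
Saks and Sturtevant). If two blocks are joined then there is a cycle of length at least `s`.
Otherwise let `H_i` be the subgroup generated by the differences of the edges in the block `i`. The
components of the block are the cosets of `H_i` and have Hamiltonian cycles, so there is a cycle of
length at least `s`, if `H_i` has at least `s` elements for some `i`, or if it has `s - 1`
elements and the fixed point is joined to the block. Otherwise there is no 2-connected subgraph on
`s` vertices. So the signed number of the invariant graphs without the property is the product over the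
blocks of the signed numbers of the sets of differences which generate a subgroup of order exactly
`s - 1` (the fixed point not being joined to the block); for the smaller subgroups the two
possibilities for the fixed point cancel. As the exponents of the groups are squarefree, the
contributions of all subgroups of order `s - 1` are different from zero and have the same sign
(`Gm_pos` of the starting files), and such subgroups exist.
-/

namespace Pool.Agent.Results.MP_257582_lc.HamiltonianSandwich

open Pool.Agent.Q226.HS

/-- Every decision strategy `σ` (the next pair to be queried depends only on the answers to the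
queries made so far) needs all `n.choose 2` queries: there are two graphs that agree on the first
`n.choose 2 - 1` queried pairs, one with and one without `P`. -/
def Evasive {n : ℕ} (P : SimpleGraph (Fin n) → Prop) : Prop :=
  ∀ σ : Finset (Sym2 (Fin n)) → SimpleGraph (Fin n) → Sym2 (Fin n),
    (∀ (Q : Finset (Sym2 (Fin n))) (G H : SimpleGraph (Fin n)),
        (∀ e ∈ Q, (e ∈ G.edgeSet ↔ e ∈ H.edgeSet)) → σ Q G = σ Q H) →
    ∃ G H : SimpleGraph (Fin n),
      (∀ e ∈ (fun Q : Finset (Sym2 (Fin n)) => insert (σ Q G) Q)^[n.choose 2 - 1]
            (∅ : Finset (Sym2 (Fin n))),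
          (e ∈ G.edgeSet ↔ e ∈ H.edgeSet)) ∧ P G ∧ ¬ P H

/-- **Between long cycles and large 2-connected subgraphs.** -/
theorem result (n s : ℕ) (hs : 4 ≤ s) (hsn : s ≤ n) (hdiv : (s - 1) ∣ (n - 1))
    (hcase : IsPrimePow (s - 1) ∨ ∃ p a m : ℕ, p.Prime ∧ Squarefree m ∧ n - 1 = p ^ a * m)
    (P : SimpleGraph (Fin n) → Prop)
    (hmono : ∀ G H : SimpleGraph (Fin n), G ≤ H → P G → P H)
    (hiso : ∀ (σ : Fin n ≃ Fin n) (G : SimpleGraph (Fin n)), P G → P (G.map σ.toEmbedding))
    (hlow : ∀ G : SimpleGraph (Fin n),
      (∃ t, s ≤ t ∧ (SimpleGraph.cycleGraph t).IsContained G) → P G)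
    (hup : ∀ G : SimpleGraph (Fin n), P G →
      ∃ U : Set (Fin n), s ≤ U.ncard ∧ (G.induce U).Connected ∧
        ∀ v ∈ U, (G.induce (U \ {v})).Connected) :
    Evasive P := by
  have hq : n.choose 2 - 1 < n.choose 2 := by
    have : 0 < n.choose 2 := Nat.choose_pos (by omega)
    omega
  intro σ hσ
  by_contra hcon
  have hGP : Pool.Agent.H119R2.Kp.GP n (n.choose 2 - 1) P := by
    refine ⟨hmono, hiso, Pool.Agent.H119R2.Kp.dec_of_strategy _ P σ hσ fun G H hGH hPG => ?_⟩
    by_contra hPH
    exact hcon ⟨G, H, hGH, hPG, hPH⟩
  rcases hcase with h | ⟨p, a, m, hp, hm, hn⟩
  · rw [isPrimePow_nat_iff] at h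
    obtain ⟨p, b, hp, hb, hpb⟩ := h
    obtain ⟨k, hk⟩ := hdiv
    refine equal_blocks hGP (fun H hH => hlow H hH) (fun H hH => hup H hH) hq hs p b 1 k hp
      ?_ ?_ squarefree_one ?_ ?_ ?_
    · rw [mul_one, hpb, mul_comm, ← hk]
      omega
    · rcases Nat.eq_zero_or_pos k with h0 | h0
      · rw [h0, mul_zero] at hk
        omega
      · exact h0
    · intro h1
      exact hp.one_lt.ne' (Nat.dvd_one.1 h1)
    · rw [mul_one, hpb]
    · intro t
      exact ⟨0, fun i => Subsingleton.elim _ _⟩
  · have key : ∀ a m : ℕ, Squarefree m → n - 1 = p ^ a * m → ¬ p ∣ m → False := by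
      intro a m hm hn hpm
      have : NeZero m := ⟨hm.ne_zero⟩
      refine equal_blocks hGP (fun H hH => hlow H hH) (fun H hH => hup H hH) hq hs p a m 1 hp
        ?_ one_pos hm hpm ?_ ?_
      · rw [one_mul, ← hn]
        omega
      · rw [← hn]
        exact hdiv
      · intro t
        refine ⟨(t 0).val, fun i => ?_⟩
        rw [Subsingleton.elim i 0]
        exact ZMod.natCast_zmod_val _
    by_cases hpm : p ∣ m
    · obtain ⟨m', rfl⟩ := hpm
      refine key (a + 1) m' (hm.squarefree_of_dvd (dvd_mul_left _ _)) (by rw [hn]; ring) ?_
      intro hpm'
      have h1 := hm p (mul_dvd_mul_left p hpm')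
      exact hp.one_lt.ne' (Nat.isUnit_iff.1 h1)
    · exact key a m hm hn hpm

end Pool.Agent.Results.MP_257582_lc.HamiltonianSandwich
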