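import Mathlib
import Pool.Agent.Q6.KV.Final

set_option autoImplicit false

/-!
# Vertex connectivity is evasive for every number of vertices (MP_257582_lc)

Let `3 ≤ k < n` and let `P` be a monotone isomorphism-invariant property of graphs on `n` vertices
such that every `k`-connected graph with a Hamiltonian cycle has `P`, and every graph with `P` is
2-connected and has minimum degree at least `k`. Then `P` is evasive. There is no condition on the
arithmetic of `n`.

Examples: being `k`-connected, for all `3 ≤ k < n` (the complex of the graphs on `n` vertices that
are not `k`-connected is never collapsible); having a Hamiltonian cycle and minimum degree at least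
`k`; being `k`-edge-connected and `j`-connected, or `j`-connected with minimum degree at least `k`
(`2 ≤ j ≤ k`).

Proof.  If `P` is not evasive, then the signed number of the circulant graphs with `P` vanishes, and so
does the signed number of the circulant graphs on `n - 1` vertices the cones over which have `P` (Kahn,
Saks and Sturtevant). We use the former for odd `n` and for `k = 3`, and the latter otherwise. By the
theorem of Mader and Watkins on atoms, a connected circulant graph of degree at least `k` that is not
`k`-connected is determined by a subgroup `H` and a set `T ≠ H` of cosets of `H` with few elements. The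
signed number of the connected circulant graphs of degree at least `k` is estimated from below by
induction over the subgroups: for groups of odd order `2 N + 1` and `t = ⌈k / 2⌉ ≥ 3` it is at least half
of the binomial coefficient `M = C(N - 1, t - 1)` in absolute value, and for `t = 2` it is
`φ / 2 + μ > 0`. The number of the connected circulant graphs of degree at least `k` that are not
`k`-connected, on which the values of `P` are not known, is less than `M / 2`: for a subgroup of
order `h` it is at most `2 M / (h ^ 2 - 1)` (`main_bound`). Connected circulant graphs and the cones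
over them have Hamiltonian cycles.
-/

namespace Pool.Agent.Results.MP_257582_lc.VertexConnectivity

/-- Every decision strategy `σ` (the next pair to be queried depends only on the answers to the
queries made so far) needs all `n.choose 2` queries: there are two graphs that agree on the first
`n.choose 2 - 1` queried pairs, one with and one without `P`. -/
def Evasive {n : ℕ} (P : SimpleGraph (Fin n) → Prop) : Prop :=
  ∀ σ : Finset (Sym2 (Fin n)) → SimpleGraph (Fin n) → Sym2 (Fin n),
    (∀ (Q : Finset (Sym2 (Fin n))) (G H : SimpleGraph (Fin n)),
        (∀ e ∈ Q, (e ∈ G.edgeSet ↔ e ∈ H.edgeSet)) → σ Q G = σ Q H) →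
    ∃ G H : SimpleGraph (Fin n),
      (∀ e ∈ (fun Q : Finset (Sym2 (Fin n)) => insert (σ Q G) Q)^[n.choose 2 - 1]
            (∅ : Finset (Sym2 (Fin n))),
          (e ∈ G.edgeSet ↔ e ∈ H.edgeSet)) ∧ P G ∧ ¬ P H

/-- `G` is `k`-connected: it has more than `k` vertices and remains connected after the removal of
any set of fewer than `k` vertices. -/
def VertexConnected {n : ℕ} (k : ℕ) (G : SimpleGraph (Fin n)) : Prop :=
  k < n ∧ ∀ X : Set (Fin n), X.ncard < k → (G.induce Xᶜ).Connected

/-- **Every property between high connectivity and large minimum degree is evasive.** -/
theorem result (n k : ℕ) (hk : 3 ≤ k) (hkn : k < n) (P : SimpleGraph (Fin n) → Prop)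
    (hmono : ∀ G H : SimpleGraph (Fin n), G ≤ H → P G → P H)
    (hiso : ∀ (σ : Fin n ≃ Fin n) (G : SimpleGraph (Fin n)), P G → P (G.map σ.toEmbedding))
    (hlow : ∀ G : SimpleGraph (Fin n), VertexConnected k G →
      (SimpleGraph.cycleGraph n).IsContained G → P G)
    (hup : ∀ G : SimpleGraph (Fin n), P G →
      VertexConnected 2 G ∧ ∀ v, k ≤ (G.neighborSet v).ncard) :
    Evasive P := by
  have hVC : ∀ (l : ℕ) (G : SimpleGraph (Fin n)), Pool.Agent.Q6.KV.VC l G ↔ VertexConnected l G := by
    intro l G
    unfold Pool.Agent.Q6.KV.VC VertexConnected
    rw [Nat.card_eq_fintype_card, Fintype.card_fin]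
  intro σ hσ
  by_contra hcon
  refine Pool.Agent.Q6.KV.core n k hk hkn P (fun G h1 h2 => hlow G ((hVC k G).1 h1) h2)
    (fun G h => ⟨(hVC 2 G).2 (hup G h).1, (hup G h).2⟩)
    ⟨hmono, hiso, Pool.Agent.H119R2.Kp.dec_of_strategy _ P σ hσ fun G H hGH hPG => ?_⟩
  by_contra hPH
  exact hcon ⟨G, H, hGH, hPG, hPH⟩

end Pool.Agent.Results.MP_257582_lc.VertexConnectivity
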